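import Mathlib
import Pool.Agent.H737R3.Points

set_option autoImplicit false

namespace Pool.Agent.Results.MP_4fee6f_ag.AllFields

open MvPolynomial Pool.Agent.H737R3

/-- **The refined Chudnovsky bound.** Let `K` be a field, `N ≥ 1`, and let `S` be a finite nonempty
set of points of the projective space of dimension `N` over `K`, with ideal `I`. Then
`(α(I^(m)) + N - 1)/(m + N - 1) ≤ α(I^(r))/r` for all positive integers `m` and `r`. -/
theorem result (K : Type*) [Field K] (N : ℕ) (hN : 1 ≤ N) (S : Finset (PP K N))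
    (hS : S.Nonempty) (m r : ℕ) (hm : 1 ≤ m) (hr : 1 ≤ r) :
    ((alphaH (symPow S m) : ℝ) + N - 1) / ((m : ℝ) + N - 1) ≤ (alphaH (symPow S r) : ℝ) / r := by
  have hI : ∀ r : ℕ, symPow S r = wIdeal S (fun p => r * (fun _ : PP K N => 1) p) := by
    intro r
    unfold symPow wIdeal
    simp only [mul_one]
  obtain ⟨q, hq⟩ := hS
  rw [hI m, hI r, alphaH_eq hN, alphaH_eq hN]
  exact real_of_nat hN hm hr (demailly_w hN S (fun _ => 1) ⟨q, hq, le_rfl⟩ m r hm)

end Pool.Agent.Results.MP_4fee6f_ag.AllFields
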